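import Pool.Agent.T2H70.DE.Fin

/-!
# Small essentially bounded solutions of `A u' = Q(u)` converge exponentially

For data satisfying (H1), (H3), (H4), (H5), every solution on `[0, ∞)` which stays in a small
`L^∞` ball around `u⁺` converges pointwise exponentially to an equilibrium, which is `u⁺` exactly
when the conserved quantity `P A (u - u⁺)` vanishes, and in particular when `u - u⁺` is in some
`L^p`, `p < ∞`. Equilibria other than `u⁺` exist arbitrarily close to `u⁺`.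
-/

set_option autoImplicit false
set_option linter.unusedSectionVars false

open MeasureTheory Set Filter Topology
open Pool.Agent.T2H70.DE

namespace Pool.Agent.Results.MP_7e3c50_an.ExponentialConvergence

variable {𝕜 : Type*} [RCLike 𝕜] {H : Type*} [NormedAddCommGroup H] [InnerProductSpace 𝕜 H]
  [CompleteSpace H] [NormedSpace ℝ H] [IsScalarTower ℝ 𝕜 H]

/-- equilibria different from `u⁺` exist arbitrarily close to `u⁺` -/
lemma exists_equilibrium (D : Data 𝕜 H) (ε : ℝ) (hε : 0 < ε) :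
    ∃ v : H, v ≠ D.up ∧ D.B v v = 0 ∧ ‖v - D.up‖ ≤ ε := by
  obtain ⟨δ, hδ, hδ2⟩ := D.T_neg
  have : CompleteSpace D.V := D.closed.completeSpace_coe
  set L : H →L[𝕜] H := D.Vᗮ.starProjection - D.T with hL
  have hcoer : ∀ x : H, ‖x‖ ^ 2 * (⟨min δ 1, by positivity⟩ : NNReal) ≤ ‖inner 𝕜 (L x) x‖ := by
    intro x
    set x2 : H := D.V.starProjection x with hx2
    set x1 : H := x - x2 with hx1
    have hx2m : x2 ∈ D.V := by rw [hx2]; exact Submodule.starProjection_apply_mem _ _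
    have hx1m : x1 ∈ D.Vᗮ := by
      rw [hx1, hx2]; exact Submodule.sub_starProjection_mem_orthogonal x
    have hx12 : x = x1 + x2 := by rw [hx1]; abel
    have hT1 : D.T x1 = 0 := (D.T_ker x1).2 hx1m
    have hTx : D.T x = D.T x2 := by
      rw [hx12, map_add, hT1, zero_add]
    have hPx : D.Vᗮ.starProjection x = x1 := by
      rw [Submodule.starProjection_orthogonal']
      simp only [sub_apply]
      rfl
    have hip : ip 𝕜 (L x) x = ‖x1‖ ^ 2 - ip 𝕜 (D.T x2) x2 := by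
      have e0 : L x = x1 - D.T x2 := by
        rw [hL, sub_apply, hPx, hTx]
      have z1 : ip 𝕜 x1 x2 = 0 := by
        unfold ip
        have : inner 𝕜 x1 x2 = 0 := Submodule.inner_left_of_mem_orthogonal hx2m hx1m
        rw [this, map_zero]
      have z2 : ip 𝕜 (D.T x2) x1 = 0 := by
        unfold ip
        have : inner 𝕜 (D.T x2) x1 = 0 :=
          Submodule.inner_right_of_mem_orthogonal (D.T_mem x2) hx1m
        rw [this, map_zero]
      have z3 : ip 𝕜 (L x) x = ip 𝕜 (L x) x1 + ip 𝕜 (L x) x2 := by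
        rw [← ip_add_right, ← hx12]
      rw [z3, e0, ip_sub_left x1 (D.T x2) x1, ip_sub_left x1 (D.T x2) x2, z1, z2, ip_self]
      ring
    have h1 : ip 𝕜 (D.T x2) x2 ≤ -(δ * ‖x2‖ ^ 2) := hδ2 x2 hx2m
    have h3 : ‖x‖ ^ 2 = ‖x1‖ ^ 2 + ‖x2‖ ^ 2 := by
      have e1 : inner 𝕜 x1 x2 = 0 := Submodule.inner_left_of_mem_orthogonal hx2m hx1m
      rw [hx12, sq, sq, sq]
      exact norm_add_sq_eq_norm_sq_add_norm_sq_of_inner_eq_zero x1 x2 e1
    have h4 : ip 𝕜 (L x) x ≤ ‖inner 𝕜 (L x) x‖ := RCLike.re_le_norm _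
    refine le_trans ?_ h4
    rw [hip, h3]
    have m1 : min δ 1 ≤ δ := min_le_left _ _
    have m2 : min δ 1 ≤ 1 := min_le_right _ _
    have m3 : ((⟨min δ 1, by positivity⟩ : NNReal) : ℝ) = min δ 1 := rfl
    rw [m3]
    nlinarith [sq_nonneg ‖x1‖, sq_nonneg ‖x2‖]
  have hunit : IsUnit L := ContinuousLinearMap.isUnit_of_forall_le_norm_inner_map L
    (c := ⟨min δ 1, by positivity⟩) (by
      rw [← NNReal.coe_pos]
      show 0 < min δ 1
      positivity) hcoer
  have hsurj : (L : H →ₗ[𝕜] H).range = ⊤ := by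
    rw [LinearMap.range_eq_top]
    exact (ContinuousLinearMap.isUnit_iff_bijective.1 hunit).2
  set Φ : H → H := fun x => L x - D.B x x with hΦ
  have hder : HasStrictFDerivAt Φ L 0 := by
    have h1 : HasStrictFDerivAt (fun x : H => D.B x x) (0 : H →L[𝕜] H) 0 := by
      have := (D.B.hasStrictFDerivAt (x := 0)).clm_apply (hasStrictFDerivAt_id (𝕜 := 𝕜) (0 : H))
      simpa using this
    have h2 := (L.hasStrictFDerivAt (x := 0)).sub h1
    rw [sub_zero] at h2
    exact h2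
  have hmap := hder.map_nhds_eq_of_surj hsurj
  have hΦ0 : Φ 0 = 0 := by simp [hΦ]
  rw [hΦ0] at hmap
  have himg : Φ '' Metric.ball 0 ε ∈ 𝓝 (0 : H) := by
    rw [← hmap]
    exact image_mem_map (Metric.ball_mem_nhds _ hε)
  -- a nonzero vector of the orthogonal complement
  have hne : D.Vᗮ ≠ ⊥ := by
    intro h
    apply D.proper
    rwa [Submodule.orthogonal_eq_bot_iff] at h
  obtain ⟨b, hb, hb0⟩ := Submodule.exists_mem_ne_zero_of_ne_bot hne
  have hlim : Tendsto (fun t : 𝕜 => t • b) (𝓝[≠] 0) (𝓝 (0 : H)) := by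
    have : Tendsto (fun t : 𝕜 => t • b) (𝓝 0) (𝓝 ((0 : 𝕜) • b)) := by
      exact (continuous_id.smul continuous_const).tendsto _
    rw [zero_smul] at this
    exact this.mono_left nhdsWithin_le_nhds
  obtain ⟨t, ht, ht0⟩ := ((hlim.eventually himg).and self_mem_nhdsWithin).exists
  obtain ⟨x, hx, hxt⟩ := ht
  have ht0' : t ≠ 0 := ht0
  have htb : t • b ≠ 0 := smul_ne_zero ht0' hb0
  have hxne : x ≠ 0 := by
    rintro rfl
    rw [hΦ0] at hxt
    exact htb hxt.symm
  -- the component in `V` vanishes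
  have hTQ : D.T x + D.B x x = 0 := by
    have e1 : D.Vᗮ.starProjection x - (D.T x + D.B x x) = t • b := by
      rw [← hxt, hΦ]
      simp only [hL, sub_apply]
      abel
    have m1 : D.T x + D.B x x ∈ D.V := D.V.add_mem (D.T_mem x) (D.mem _ _)
    have m2 : D.T x + D.B x x ∈ D.Vᗮ := by
      have : D.T x + D.B x x = D.Vᗮ.starProjection x - t • b := by rw [← e1]; abel
      rw [this]
      exact D.Vᗮ.sub_mem (Submodule.starProjection_apply_mem _ _) (D.Vᗮ.smul_mem _ hb)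
    have := Submodule.inner_right_of_mem_orthogonal m1 m2
    exact inner_self_eq_zero.1 this
  refine ⟨D.up + x, ?_, ?_, ?_⟩
  · intro h
    apply hxne
    simpa using h
  · rw [D.Q_expand, hTQ]
  · rw [add_sub_cancel_left]
    have := mem_ball_zero_iff.1 hx
    exact this.le

lemma exists_Ioo {p : ℝ → Prop} (h : ∀ᵐ t, p t) {a b : ℝ} (hab : a < b) :
    ∃ t, a < t ∧ t < b ∧ p t := by
  have h2 : ∃ᵐ s : ℝ, s ∈ Ioo a b := by
    rw [frequently_ae_iff]
    simp only [ofPred_mem_eq, Real.volume_Ioo]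
    simpa using hab
  obtain ⟨s, hs1, hs2⟩ := (h2.and_eventually h).exists
  exact ⟨s, hs1.1, hs1.2, hs2⟩

lemma exp_lim (β K : ℝ) (hβ : 0 < β) (x : ℝ) (h : ∀ n : ℕ, x ≤ K * Real.exp (-(β * n))) : x ≤ 0 := by
  have h1 : Tendsto (fun n : ℕ => K * Real.exp (-(β * n))) atTop (𝓝 (K * 0)) := by
    apply Tendsto.const_mul
    apply Real.tendsto_exp_neg_atTop_nhds_zero.comp
    exact (tendsto_natCast_atTop_atTop).const_mul_atTop hβ
  rw [mul_zero] at h1
  exact ge_of_tendsto' h1 h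

/-- the limit is an equilibrium with the same conserved quantity -/
lemma limit_props (D : Data 𝕜 H) {u φ : ℝ → H} {α ε N c : ℝ}
    (S : Sol 𝕜 D.A (D.ww u) (D.ff u) φ α ε N c)
    (hcons : ∀ s t, 0 ≤ s → s ≤ t → D.P (φ t) = D.P (φ s)) (wi : H) (hwi : ‖wi‖ ≤ ε)
    (C β : ℝ) (hβ : 0 < β)
    (hconv : ∀ᵐ t : ℝ, 0 ≤ t → ‖D.ww u t - wi‖ ≤ C * Real.exp (-(β * t))) :
    D.T wi + D.B wi wi = 0 ∧ D.P (D.A wi) = D.P (φ 0) := by
  have hC0 : 0 ≤ C := by
    obtain ⟨t, h1, -, h2⟩ := exists_Ioo hconv (show (0 : ℝ) < 1 by norm_num)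
    have h3 := (norm_nonneg _).trans (h2 h1.le)
    exact nonneg_of_mul_nonneg_left h3 (Real.exp_pos _)
  have hε0 : 0 ≤ ε := (norm_nonneg _).trans hwi
  have hexp : ∀ (n : ℕ) (t : ℝ), (n : ℝ) ≤ t →
      C * Real.exp (-(β * t)) ≤ C * Real.exp (-(β * n)) := by
    intro n t h
    apply mul_le_mul_of_nonneg_left _ hC0
    apply Real.exp_le_exp.2
    nlinarith
  -- good times
  have hgood : ∀ n : ℕ, ∃ t : ℝ, (n : ℝ) ≤ t ∧ ‖D.ww u t - wi‖ ≤ C * Real.exp (-(β * n)) ∧
      ‖D.ww u (t + 1) - wi‖ ≤ C * Real.exp (-(β * n)) ∧ φ t = D.A (D.ww u t) ∧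
      φ (t + 1) = D.A (D.ww u (t + 1)) := by
    intro n
    have hn : (0 : ℝ) ≤ n := Nat.cast_nonneg n
    obtain ⟨t, h1, h2, h3, h4, h5, h6⟩ := exists_Ioo
      (hconv.and ((ae_shift 1 hconv).and (S.hφ.and (ae_shift 1 S.hφ))))
      (show (n : ℝ) < n + 1 by linarith)
    exact ⟨t, h1.le, (h3 (by linarith)).trans (hexp n t h1.le),
      (h4 (by linarith)).trans (hexp n (t + 1) (by linarith)), h5 (by linarith),
      h6 (by linarith)⟩
  constructor
  · set F : H := D.T wi + D.B wi wi with hF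
    have hLip : ∀ᵐ s : ℝ, 0 ≤ s → ‖D.ff u s - F‖ ≤ (‖D.T‖ + ‖D.B‖ * (2 * ε)) *
        (C * Real.exp (-(β * s))) := by
      filter_upwards [hconv, S.hwb] with s h1 h2 hs
      rw [D.ff_apply u hs, hF]
      have e1 : D.T (D.ww u s) + D.B (D.ww u s) (D.ww u s) - (D.T wi + D.B wi wi)
          = D.T (D.ww u s - wi) + D.B (D.ww u s + wi) (D.ww u s - wi) := by
        rw [map_sub, map_sub, map_add, add_apply, add_apply, D.symm wi (D.ww u s)]
        abel
      rw [e1]
      have e2 : ‖D.ww u s + wi‖ ≤ 2 * ε := (norm_add_le _ _).trans (by linarith)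
      calc ‖D.T (D.ww u s - wi) + D.B (D.ww u s + wi) (D.ww u s - wi)‖
          ≤ ‖D.T‖ * ‖D.ww u s - wi‖ + ‖D.B‖ * ‖D.ww u s + wi‖ * ‖D.ww u s - wi‖ :=
            (norm_add_le _ _).trans (add_le_add (D.T.le_opNorm _) (D.B.le_opNorm₂ _ _))
        _ ≤ ‖D.T‖ * ‖D.ww u s - wi‖ + ‖D.B‖ * (2 * ε) * ‖D.ww u s - wi‖ := by gcongr
        _ = (‖D.T‖ + ‖D.B‖ * (2 * ε)) * ‖D.ww u s - wi‖ := by ring
        _ ≤ _ := by
          apply mul_le_mul_of_nonneg_left (h1 hs)
          positivity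
    have hle : ‖F‖ ≤ 0 := by
      apply exp_lim β ((‖D.T‖ + ‖D.B‖ * (2 * ε)) * C + ‖D.A‖ * (2 * C)) hβ
      intro n
      have hn : (0 : ℝ) ≤ n := Nat.cast_nonneg n
      obtain ⟨t, h1, h2, h3, h4, h5⟩ := hgood n
      have e1 : ∫ s in t..(t + 1), (D.ff u s - F) = D.A (D.ww u (t + 1) - D.ww u t) - F := by
        rw [intervalIntegral.integral_sub (intInt S.hf S.hfb _ _) intervalIntegrable_const,
          ← S.hint t (t + 1) (hn.trans h1) (by linarith), intervalIntegral.integral_const,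
          add_sub_cancel_left, one_smul, h4, h5, map_sub]
      have e2 : ‖∫ s in t..(t + 1), (D.ff u s - F)‖
          ≤ ((‖D.T‖ + ‖D.B‖ * (2 * ε)) * (C * Real.exp (-(β * n)))) * |t + 1 - t| := by
        apply intervalIntegral.norm_integral_le_of_norm_le_const_ae
        filter_upwards [hLip] with s hs hs2
        rw [uIoc_of_le (by linarith)] at hs2
        refine (hs (by linarith [hs2.1])).trans ?_
        apply mul_le_mul_of_nonneg_left _ (by positivity)
        exact hexp n s (by linarith [hs2.1])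
      rw [add_sub_cancel_left, abs_one, mul_one] at e2
      have e3 : ‖D.ww u (t + 1) - D.ww u t‖ ≤ 2 * (C * Real.exp (-(β * n))) := by
        have : D.ww u (t + 1) - D.ww u t = (D.ww u (t + 1) - wi) - (D.ww u t - wi) := by abel
        rw [this]
        exact (norm_sub_le _ _).trans (by linarith)
      have e4 : F = D.A (D.ww u (t + 1) - D.ww u t) - ∫ s in t..(t + 1), (D.ff u s - F) := by
        rw [e1]; abel
      have e5 : ‖F‖ ≤ ‖D.A (D.ww u (t + 1) - D.ww u t)‖
          + ‖∫ s in t..(t + 1), (D.ff u s - F)‖ := by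
        conv_lhs => rw [e4]
        exact norm_sub_le _ _
      have e6 : ‖D.A (D.ww u (t + 1) - D.ww u t)‖ ≤ ‖D.A‖ * (2 * (C * Real.exp (-(β * n)))) :=
        (D.A.le_opNorm _).trans (mul_le_mul_of_nonneg_left e3 (norm_nonneg _))
      linarith
    exact norm_le_zero_iff.1 hle
  · have hle : ‖D.P (D.A wi) - D.P (φ 0)‖ ≤ 0 := by
      apply exp_lim β (‖D.A‖ * C) hβ
      intro n
      have hn : (0 : ℝ) ≤ n := Nat.cast_nonneg n
      obtain ⟨t, h1, h2, h3, h4, h5⟩ := hgood n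
      have e0 : D.P (D.A wi) - D.P (φ 0) = D.P (D.A (wi - D.ww u t)) := by
        rw [← hcons 0 t le_rfl (hn.trans h1), h4, ← map_sub, ← map_sub]
      rw [e0]
      have e1 : ‖D.P (D.A (wi - D.ww u t))‖ ≤ ‖D.A (wi - D.ww u t)‖ :=
        Submodule.norm_orthogonalProjectionOnto_apply_le _ _
      have e2 : ‖D.A (wi - D.ww u t)‖ ≤ ‖D.A‖ * (C * Real.exp (-(β * n))) := by
        refine (D.A.le_opNorm _).trans (mul_le_mul_of_nonneg_left ?_ (norm_nonneg _))
        rw [norm_sub_rev]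
        exact h2
      linarith
    have := norm_le_zero_iff.1 hle
    exact sub_eq_zero.1 this

theorem result (D : Data 𝕜 H) :
    (∃ ε : ℝ, 0 < ε ∧ ∃ β : ℝ, 0 < β ∧ ∃ C : ℝ, ∀ u : ℝ → H, IsSolution D u →
      (∀ᵐ t ∂(volume.restrict (Ici (0 : ℝ))), ‖u t - D.up‖ ≤ ε) →
      ∃ v : H, D.B v v = 0 ∧ ‖v - D.up‖ ≤ ε ∧
        (∀ᵐ t ∂(volume.restrict (Ici (0 : ℝ))), ‖u t - v‖ ≤ C * Real.exp (-(β * t))) ∧
        (v = D.up ↔ ∀ᵐ t ∂(volume.restrict (Ici (0 : ℝ))),
          D.Vᗮ.orthogonalProjectionOnto (D.A (u t - D.up)) = 0) ∧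
        ((∃ p : ℝ, 0 < p ∧ Integrable (fun t => ‖u t - D.up‖ ^ p)
          (volume.restrict (Ici (0 : ℝ)))) → v = D.up)) ∧
    ∀ ε : ℝ, 0 < ε → ∃ v : H, v ≠ D.up ∧ D.B v v = 0 ∧ ‖v - D.up‖ ≤ ε := by
  refine ⟨?_, exists_equilibrium D⟩
  obtain ⟨c, hc0, hc⟩ := D.coercive
  set ε : ℝ := c / (2 * (‖D.B‖ + 1)) with hε
  have hε0 : 0 < ε := by rw [hε]; positivity
  have hεB : 2 * ‖D.B‖ * ε ≤ c := by
    have h1 : 2 * (‖D.B‖ + 1) * ε = c := by rw [hε]; field_simp
    nlinarith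
  set α := ‖D.A‖ + 1 with hα
  set N := ‖D.T‖ * ε + ‖D.B‖ * ε * ε with hN
  have hq0 : 0 < Real.sqrt (Sol.rho α c) := by
    apply Real.sqrt_pos.2
    unfold Sol.rho
    positivity
  have hq1 : Real.sqrt (Sol.rho α c) < 1 := by
    rw [Real.sqrt_lt' one_pos, one_pow]
    unfold Sol.rho
    rw [div_lt_one (by positivity)]
    linarith
  have hβ : 0 < -Real.log (Real.sqrt (Sol.rho α c)) := by
    have := Real.log_neg hq0 hq1
    linarith
  refine ⟨ε, hε0, -Real.log (Real.sqrt (Sol.rho α c)), hβ,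
    (Sol.CC α ε N c + 2 * ε) * (Real.sqrt (Sol.rho α c) ^ 3)⁻¹, fun u hu hs => ?_⟩
  obtain ⟨φ, S, hcons⟩ := D.toSol hc0 hc hε0 hεB u hu hs
  obtain ⟨wi, hwi, hconv⟩ := S.exponential
  obtain ⟨hQ, hP⟩ := limit_props D S hcons wi hwi _ _ hβ hconv
  -- the conserved quantity
  have hPw : ∀ᵐ t : ℝ, 0 ≤ t → D.P (D.A (u t - D.up)) = D.P (φ 0) := by
    filter_upwards [S.hφ] with t ht h0
    rw [← D.ww_apply u h0, ← ht h0, hcons 0 t le_rfl h0]
  have hzero : D.P (D.A wi) = 0 → wi = 0 := by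
    intro h
    have e1 := hc wi h
    have e2 : ip 𝕜 (D.T wi) wi = -ip 𝕜 (D.B wi wi) wi := by
      have : ip 𝕜 (D.T wi + D.B wi wi) wi = 0 := by
        rw [hQ]; unfold ip; rw [inner_zero_left, map_zero]
      rw [ip_add_left] at this
      linarith
    have e3 := (abs_le.1 (abs_ip_le (𝕜 := 𝕜) (D.B wi wi) wi)).2
    have e4 : ‖D.B wi wi‖ ≤ ‖D.B‖ * ‖wi‖ * ‖wi‖ := D.B.le_opNorm₂ _ _
    have e5 : ‖D.B wi wi‖ * ‖wi‖ ≤ c * ‖wi‖ ^ 2 := by
      calc ‖D.B wi wi‖ * ‖wi‖ ≤ (‖D.B‖ * ‖wi‖ * ‖wi‖) * ‖wi‖ :=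
            mul_le_mul_of_nonneg_right e4 (norm_nonneg _)
        _ ≤ (‖D.B‖ * ε * ‖wi‖) * ‖wi‖ := by gcongr
        _ = (‖D.B‖ * ε) * ‖wi‖ ^ 2 := by ring
        _ ≤ c * ‖wi‖ ^ 2 := by
          apply mul_le_mul_of_nonneg_right _ (sq_nonneg _)
          nlinarith [norm_nonneg wi, mul_nonneg (show (0 : ℝ) ≤ ‖D.B‖ by positivity) hε0.le]
    have e6 : c * ‖wi‖ ^ 2 ≤ 0 := by nlinarith
    have e7 : ‖wi‖ ^ 2 ≤ 0 := by
      by_contra hcon
      push Not at hcon
      nlinarith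
    have e8 : ‖wi‖ = 0 := by nlinarith [norm_nonneg wi, sq_nonneg ‖wi‖]
    exact norm_eq_zero.1 e8
  refine ⟨D.up + wi, ?_, ?_, ?_, ?_, ?_⟩
  · rw [D.Q_expand, hQ]
  · rw [add_sub_cancel_left]; exact hwi
  · rw [ae_restrict_iff' measurableSet_Ici]
    filter_upwards [hconv] with t ht h0
    have := ht h0
    rw [D.ww_apply u h0] at this
    rwa [← sub_sub]
  · rw [ae_restrict_iff' measurableSet_Ici]
    constructor
    · intro h
      have hw0 : wi = 0 := by simpa using h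
      rw [hw0, map_zero, map_zero] at hP
      filter_upwards [hPw] with t ht h0
      have := ht h0
      rw [← hP] at this
      exact this
    · intro h
      have : D.P (D.A wi) = 0 := by
        rw [hP]
        obtain ⟨t, h1, -, h2, h3⟩ := exists_Ioo (h.and hPw) (show (0 : ℝ) < 1 by norm_num)
        rw [← h3 h1.le]
        exact h2 h1.le
      rw [hzero this, add_zero]
  · rintro ⟨p, hp, hint⟩
    by_contra hne
    have hwne : wi ≠ 0 := by
      intro h; apply hne; rw [h, add_zero]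
    have hwpos : 0 < ‖wi‖ := norm_pos_iff.2 hwne
    set β := -Real.log (Real.sqrt (Sol.rho α c)) with hβ'
    set C := (Sol.CC α ε N c + 2 * ε) * (Real.sqrt (Sol.rho α c) ^ 3)⁻¹ with hC'
    -- for large times the perturbation is bounded below
    have hlim : Tendsto (fun t : ℝ => C * Real.exp (-(β * t))) atTop (𝓝 (C * 0)) := by
      apply Tendsto.const_mul
      apply Real.tendsto_exp_neg_atTop_nhds_zero.comp
      exact tendsto_id.const_mul_atTop hβ
    rw [mul_zero] at hlim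
    obtain ⟨T, hT⟩ := (eventually_atTop.1 (hlim.eventually (gt_mem_nhds (half_pos hwpos))))
    have hlow : ∀ᵐ t ∂(volume.restrict (Ici (max T 0))),
        (‖wi‖ / 2) ^ p ≤ ‖u t - D.up‖ ^ p := by
      rw [ae_restrict_iff' measurableSet_Ici]
      filter_upwards [hconv] with t ht hmem
      have h0 : (0 : ℝ) ≤ t := (le_max_right _ _).trans hmem
      have h1 : T ≤ t := (le_max_left _ _).trans hmem
      have h2 := ht h0
      have h3 := hT t h1
      rw [D.ww_apply u h0] at h2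
      apply Real.rpow_le_rpow (by positivity) _ hp.le
      have h4 : ‖wi‖ ≤ ‖u t - D.up‖ + ‖u t - D.up - wi‖ := by
        have : wi = (u t - D.up) - (u t - D.up - wi) := by abel
        conv_lhs => rw [this]
        exact norm_sub_le _ _
      linarith
    have hint2 : Integrable (fun t => ‖u t - D.up‖ ^ p) (volume.restrict (Ici (max T 0))) :=
      hint.mono_measure (Measure.restrict_mono (Ici_subset_Ici.2 (le_max_right _ _)) le_rfl)
    have hconst : Integrable (fun _ : ℝ => (‖wi‖ / 2) ^ p)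
        (volume.restrict (Ici (max T 0))) := by
      apply hint2.mono' aestronglyMeasurable_const
      filter_upwards [hlow] with t ht
      rw [Real.norm_eq_abs, abs_of_nonneg (by positivity)]
      exact ht
    rw [integrable_const_iff] at hconst
    rcases hconst with h | h
    · have : 0 < (‖wi‖ / 2) ^ p := by positivity
      linarith
    · have := h.measure_univ_lt_top
      rw [Measure.restrict_apply_univ, Real.volume_Ici] at this
      exact absurd this (lt_irrefl _)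

end Pool.Agent.Results.MP_7e3c50_an.ExponentialConvergence
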